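import Pool.Agent.Strip051.LB.A1m2p_pm.Defs

/-! # LINE boxes A1m2p_pm: part 2 -/

namespace Pool.Agent.Strip051.LB.A1m2p_pm

open Pool.Agent.Strip051.Box Pool.Agent.Strip051.Box2

set_option maxRecDepth 100000

theorem c12 : chk f 60 (R2 (L1 b0)) = true := by decide +kernel

theorem c13 : chk f 60 (R1 b0) = true := by decide +kernel

end Pool.Agent.Strip051.LB.A1m2p_pm
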